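import Pool.Agent.helper38.OV.Spec

set_option autoImplicit false

namespace Pool.Agent.OV

open Finset Real Pool.Agent.AT Pool.Agent.helper85.FC Pool.Agent.OM

open Classical in
theorem TRG_main (ε : ℝ) (hε : 0 < ε) (hε1 : ε ≤ 1) (A B H M N r : ℕ) (hB : 1 ≤ B)
    (hAB : (A : ℝ) ≤ ε / 4 * B) (hH : 1 ≤ H) (hr : r < M) (hN : 2 / ε ≤ N)
    (h : ∑ v ∈ range (B * (M * (2 * N))) with v % M = r,
      BG H A B ((v : ℤ) - ((B : ℤ) - A) * ((M * N : ℕ) : ℤ)) < ε / 4 * ((B : ℝ) * ((2 * N : ℕ) : ℝ))) :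
    (1 - ε) * (2 * ((B + H * ((B + A) * (M * N)) : ℕ) : ℝ)) ≤ ((H * M : ℕ) : ℝ) *
      #{c ∈ Icc (-((B + H * ((B + A) * (M * N)) : ℕ) : ℤ)) ((B + H * ((B + A) * (M * N)) : ℕ) : ℤ) |
        c % ((H * M : ℕ) : ℤ) = (((((B : ℤ) - A + H * r) % ((H * M : ℕ) : ℤ)).toNat : ℕ) : ℤ) ∧ TrueCase B A c} := by
  have hM : 1 ≤ M := by omega
  have hABn : A ≤ B := by
    have h1 : (A : ℝ) ≤ B := by
      have h2 : (0 : ℝ) ≤ B := Nat.cast_nonneg _
      nlinarith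
    exact_mod_cast h1
  have hABz : (A : ℤ) ≤ B := by exact_mod_cast hABn
  set n : ℕ := B * (2 * N) with hn
  set z : ℕ := M * N with hz
  set X : ℕ := B + H * ((B + A) * z) with hX
  have hqpos : 1 ≤ H * M := Nat.mul_pos hH hM
  let v' : ℕ → ℤ := fun w => ((r + M * w : ℕ) : ℤ) - ((B : ℤ) - A) * ((z : ℕ) : ℤ)
  let c : ℕ → ℤ := fun w => (B : ℤ) - A + H * v' w
  let TT : ℕ → Prop := fun w => TrueCase B A (c w)
  have hsum : ∑ w ∈ range n, BG H A B (v' w) < ε / 4 * ((B : ℝ) * ((2 * N : ℕ) : ℝ)) := by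
    refine lt_of_le_of_lt ?_ h
    have hinj : Set.InjOn (fun w : ℕ => r + M * w) (range n : Set ℕ) := by
      intro w _ w' _ hww
      have h1 : M * w = M * w' := by
        have : r + M * w = r + M * w' := hww
        omega
      exact Nat.eq_of_mul_eq_mul_left hM h1
    have h2 : ∑ w ∈ range n, BG H A B (v' w) =
        ∑ v ∈ (range n).image (fun w : ℕ => r + M * w), BG H A B ((v : ℤ) - ((B : ℤ) - A) * ((z : ℕ) : ℤ)) := by
      rw [Finset.sum_image hinj]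
    rw [h2]
    refine Finset.sum_le_sum_of_subset_of_nonneg ?_ ?_
    · intro v hv
      obtain ⟨w, hw, rfl⟩ := Finset.mem_image.1 hv
      rw [Finset.mem_filter, Finset.mem_range]
      have hw' : w < n := Finset.mem_range.1 hw
      refine ⟨?_, ?_⟩
      · have h3 : M * (w + 1) ≤ M * n := Nat.mul_le_mul_left M hw'
        have h4 : M * n = B * (M * (2 * N)) := by rw [hn]; ring
        have h5 : M * (w + 1) = M * w + M := by ring
        omega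
      · rw [Nat.add_mul_mod_self_left, Nat.mod_eq_of_lt hr]
    · intro v _ _
      unfold BG
      split_ifs
      · exact le_refl _
      · exact zero_le_one
  have hcount : (n : ℝ) = ((#{w ∈ range n | TT w} : ℕ) : ℝ) + ∑ w ∈ range n, BG H A B (v' w) := by
    have h1 : ∀ w, BG H A B (v' w) = if TT w then (0 : ℝ) else 1 := fun w => rfl
    have h2 : ((#{w ∈ range n | TT w} : ℕ) : ℝ) = ∑ w ∈ range n, if TT w then (1 : ℝ) else 0 := by
      rw [Finset.sum_boole]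
    rw [h2, ← Finset.sum_add_distrib]
    have h3 : ∀ w ∈ range n, ((if TT w then (1 : ℝ) else 0) + BG H A B (v' w)) = 1 := by
      intro w _
      rw [h1 w]
      split_ifs <;> norm_num
    rw [Finset.sum_congr rfl h3]
    simp
  have hmod : ∀ w, c w % ((H * M : ℕ) : ℤ) = ((B : ℤ) - A + H * r) % ((H * M : ℕ) : ℤ) := by
    intro w
    have h2 : c w = (B : ℤ) - A + H * r + ((H * M : ℕ) : ℤ) * ((w : ℤ) - ((B : ℤ) - A) * N) := by
      show (B : ℤ) - A + H * (((r + M * w : ℕ) : ℤ) - ((B : ℤ) - A) * ((z : ℕ) : ℤ)) = _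
      rw [hz]
      push_cast
      ring
    rw [h2, Int.add_mul_emod_self_left]
  have hmap : #{w ∈ range n | TT w} ≤ #{c ∈ Icc (-(X : ℤ)) (X : ℤ) |
        c % ((H * M : ℕ) : ℤ) = (((((B : ℤ) - A + H * r) % ((H * M : ℕ) : ℤ)).toNat : ℕ) : ℤ) ∧ TrueCase B A c} := by
    refine Finset.card_le_card_of_injOn c ?_ ?_
    · intro w hw
      rw [Finset.mem_coe, Finset.mem_filter] at hw
      obtain ⟨hw1, hw2⟩ := hw
      have hw' : w < n := Finset.mem_range.1 hw1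
      rw [Finset.mem_coe, Finset.mem_filter, Finset.mem_Icc]
      have h3 : ((r + M * w : ℕ) : ℤ) ≤ 2 * B * z := by
        have h4 : r + M * w ≤ 2 * B * z := by
          have h5 : M * (w + 1) ≤ M * n := Nat.mul_le_mul_left M hw'
          have h6 : M * (w + 1) = M * w + M := by ring
          have h7 : M * n = 2 * B * z := by rw [hn, hz]; ring
          omega
        exact_mod_cast h4
      have h4 : (0 : ℤ) ≤ ((r + M * w : ℕ) : ℤ) := Int.natCast_nonneg _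
      have hz0 : (0 : ℤ) ≤ z := Int.natCast_nonneg _
      have hA0 : (0 : ℤ) ≤ A := Int.natCast_nonneg _
      have hHz : (0 : ℤ) ≤ H := Int.natCast_nonneg _
      have hAz : (0 : ℤ) ≤ (A : ℤ) * z := by positivity
      have h8 : v' w ≤ ((B : ℤ) + A) * z := by
        show ((r + M * w : ℕ) : ℤ) - ((B : ℤ) - A) * ((z : ℕ) : ℤ) ≤ _
        nlinarith
      have h9 : -(((B : ℤ) + A) * z) ≤ v' w := by
        show _ ≤ ((r + M * w : ℕ) : ℤ) - ((B : ℤ) - A) * ((z : ℕ) : ℤ)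
        nlinarith
      have h10 : (H : ℤ) * v' w ≤ H * (((B : ℤ) + A) * z) := mul_le_mul_of_nonneg_left h8 hHz
      have h11 : (H : ℤ) * (-(((B : ℤ) + A) * z)) ≤ H * v' w := mul_le_mul_of_nonneg_left h9 hHz
      have hXz : (X : ℤ) = B + H * (((B : ℤ) + A) * z) := by
        rw [hX]
        push_cast
        ring
      refine ⟨⟨?_, ?_⟩, ?_, hw2⟩
      · show -(X : ℤ) ≤ (B : ℤ) - A + H * v' w
        rw [hXz]
        linarith [Int.natCast_nonneg B]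
      · show (B : ℤ) - A + H * v' w ≤ X
        rw [hXz]
        linarith
      · rw [hmod w, Int.toNat_of_nonneg (Int.emod_nonneg _ (by omega))]
    · intro w hw w' hw' hww
      have h5 : (B : ℤ) - A + H * (((r + M * w : ℕ) : ℤ) - ((B : ℤ) - A) * ((z : ℕ) : ℤ)) =
        (B : ℤ) - A + H * (((r + M * w' : ℕ) : ℤ) - ((B : ℤ) - A) * ((z : ℕ) : ℤ)) := hww
      have h6 : (H : ℤ) * (((r + M * w : ℕ) : ℤ) - ((B : ℤ) - A) * ((z : ℕ) : ℤ)) =
        H * (((r + M * w' : ℕ) : ℤ) - ((B : ℤ) - A) * ((z : ℕ) : ℤ)) := by linarith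
      have h7 : (H : ℤ) ≠ 0 := by
        have : (1 : ℤ) ≤ H := by exact_mod_cast hH
        omega
      have h8 := mul_left_cancel₀ h7 h6
      have h9 : ((r + M * w : ℕ) : ℤ) = ((r + M * w' : ℕ) : ℤ) := by linarith
      have h10 : r + M * w = r + M * w' := by exact_mod_cast h9
      have h11 : M * w = M * w' := by omega
      exact Nat.eq_of_mul_eq_mul_left hM h11
  have hmapR : ((#{w ∈ range n | TT w} : ℕ) : ℝ) ≤ ((#{c ∈ Icc (-(X : ℤ)) (X : ℤ) |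
        c % ((H * M : ℕ) : ℤ) = (((((B : ℤ) - A + H * r) % ((H * M : ℕ) : ℤ)).toNat : ℕ) : ℤ) ∧ TrueCase B A c} : ℕ) : ℝ) := by
    exact_mod_cast hmap
  have hlow : (1 - ε / 4) * ((B : ℝ) * (2 * N)) ≤ ((#{w ∈ range n | TT w} : ℕ) : ℝ) := by
    have h1 : (n : ℝ) = (B : ℝ) * (2 * N) := by rw [hn]; push_cast; ring
    rw [h1] at hcount
    have h2 : ε / 4 * ((B : ℝ) * ((2 * N : ℕ) : ℝ)) = ε / 4 * ((B : ℝ) * (2 * N)) := by push_cast; ring
    rw [h2] at hsum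
    linarith
  have hq0 : (0 : ℝ) ≤ ((H * M : ℕ) : ℝ) := Nat.cast_nonneg _
  refine le_trans ?_ (mul_le_mul_of_nonneg_left (hlow.trans hmapR) hq0)
  -- final inequality
  have hB1 : (1 : ℝ) ≤ B := by exact_mod_cast hB
  have hH1 : (1 : ℝ) ≤ H := by exact_mod_cast hH
  have hM1 : (1 : ℝ) ≤ M := by exact_mod_cast hM
  have hN0 : (0 : ℝ) ≤ N := Nat.cast_nonneg _
  have hN' : 2 ≤ ε * N := by
    rw [div_le_iff₀ hε] at hN
    linarith
  have hzr : (z : ℝ) = M * N := by rw [hz]; push_cast; ring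
  have hXr : (X : ℝ) = B + H * ((B + A) * z) := by rw [hX]; push_cast; ring
  have hzN : (N : ℝ) ≤ z := by
    rw [hzr]
    nlinarith
  have hz2 : 2 ≤ ε * z := by
    have : ε * N ≤ ε * z := mul_le_mul_of_nonneg_left hzN hε.le
    linarith
  have hHz2 : 2 ≤ ε * (H * z) := by
    have h1 : (0 : ℝ) ≤ z := Nat.cast_nonneg _
    have h2 : (z : ℝ) ≤ H * z := by nlinarith
    have : ε * z ≤ ε * (H * z) := mul_le_mul_of_nonneg_left h2 hε.le
    linarith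
  have hHz0 : (0 : ℝ) ≤ H * z := by positivity
  rw [hXr]
  have e1 : ((H * M : ℕ) : ℝ) * ((1 - ε / 4) * ((B : ℝ) * (2 * N))) = (1 - ε / 4) * (2 * (B * (H * z))) := by
    rw [hzr]
    push_cast
    ring
  rw [e1]
  have h3 : (H : ℝ) * ((B + A) * z) ≤ (1 + ε / 4) * (B * (H * z)) := by
    have h4 : (A : ℝ) * (H * z) ≤ ε / 4 * B * (H * z) := mul_le_mul_of_nonneg_right hAB hHz0
    nlinarith
  have h5 : (1 - ε) * (2 * (B + H * ((B + A) * z))) ≤ (1 - ε) * (2 * (B + (1 + ε / 4) * (B * (H * z)))) := by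
    refine mul_le_mul_of_nonneg_left ?_ (by linarith)
    linarith
  refine h5.trans ?_
  have h6 : (B : ℝ) * 2 ≤ B * (ε * (H * z)) := mul_le_mul_of_nonneg_left hHz2 (by linarith)
  have h7 : (0 : ℝ) ≤ B * (H * z) := by positivity
  have h8 : 0 ≤ ε * ε * (B * (H * z)) := by positivity
  nlinarith

theorem TRG_ratio (ε : ℝ) (hε : 0 < ε) (hε1 : ε ≤ 1) (K a b s s' m : ℕ) (hK : 1 ≤ K) (ha : 1 ≤ a) (hb : 1 ≤ b)
    (hab : (a : ℝ) ≤ ε / (4 * K) * b) (hs : 1 ≤ s) (hs' : 1 ≤ s') (hss : s ≤ K * s') (hm : 1 ≤ m) :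
    1 ≤ nb a b s s' m ∧ (na a b s s' m : ℝ) ≤ ε / 4 * nb a b s s' m := by
  have hK1 : (1 : ℝ) ≤ K := by exact_mod_cast hK
  have hb0 : (0 : ℝ) ≤ b := Nat.cast_nonneg _
  have hab1 : a ≤ b := by
    have h1 : ε / (4 * K) ≤ 1 := by
      rw [div_le_one (by positivity)]
      linarith
    have h2 : (a : ℝ) ≤ b := by nlinarith
    exact_mod_cast h2
  set g := Nat.gcd (s * a ^ m) (s' * b ^ m) with hg
  have hsa : 1 ≤ s * a ^ m := Nat.mul_pos hs (Nat.one_le_pow _ _ ha)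
  have hsb : 1 ≤ s' * b ^ m := Nat.mul_pos hs' (Nat.one_le_pow _ _ hb)
  have hgpos : 1 ≤ g := Nat.gcd_pos_of_pos_left _ hsa
  have h1 : na a b s s' m * g = s * a ^ m := Nat.div_mul_cancel (Nat.gcd_dvd_left _ _)
  have h2 : nb a b s s' m * g = s' * b ^ m := Nat.div_mul_cancel (Nat.gcd_dvd_right _ _)
  have hB : 1 ≤ nb a b s s' m := by
    rcases Nat.eq_zero_or_pos (nb a b s s' m) with h | h
    · rw [h, zero_mul] at h2
      omega
    · exact h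
  refine ⟨hB, ?_⟩
  have hgR : (0 : ℝ) < g := by exact_mod_cast hgpos
  have h3 : (na a b s s' m : ℝ) * g = s * (a : ℝ) ^ m := by exact_mod_cast h1
  have h4 : (nb a b s s' m : ℝ) * g = s' * (b : ℝ) ^ m := by exact_mod_cast h2
  refine le_of_mul_le_mul_right ?_ hgR
  rw [h3, mul_assoc, h4]
  obtain ⟨k, rfl⟩ : ∃ k, m = k + 1 := ⟨m - 1, by omega⟩
  have h5 : (s : ℝ) ≤ K * s' := by exact_mod_cast hss
  have h6 : (a : ℝ) ^ k ≤ (b : ℝ) ^ k := pow_le_pow_left₀ (Nat.cast_nonneg _) (by exact_mod_cast hab1) _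
  have h7 : (a : ℝ) ^ (k + 1) ≤ (b : ℝ) ^ k * (ε / (4 * K) * b) := by
    rw [pow_succ]
    exact mul_le_mul h6 hab (Nat.cast_nonneg _) (by positivity)
  calc (s : ℝ) * (a : ℝ) ^ (k + 1) ≤ (K * s') * ((b : ℝ) ^ k * (ε / (4 * K) * b)) :=
        mul_le_mul h5 h7 (by positivity) (by positivity)
    _ = ε / 4 * (s' * (b : ℝ) ^ (k + 1)) := by
        have hK0 : (K : ℝ) ≠ 0 := by positivity
        field_simp
        ring

theorem TRG_dens {ε ε' : ℝ} (h : ε ≤ ε') {a b : ℕ} (hd : Dens ε a b) : Dens ε' a b := by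
  obtain ⟨q, s, hq, hs, hX⟩ := hd
  refine ⟨q, s, hq, hs, fun X₀ => ?_⟩
  obtain ⟨X, hX1, hX2⟩ := hX X₀
  refine ⟨X, hX1, le_trans ?_ hX2⟩
  have : (0 : ℝ) ≤ X := Nat.cast_nonneg _
  nlinarith

open Classical in
theorem TRG (hNHG : NHG_stmt) : TRG_stmt := by
  intro hQ ε₀ hε₀ K hK
  set ε : ℝ := min ε₀ 1 with hεdef
  have hε : 0 < ε := lt_min hε₀ one_pos
  have hε1 : ε ≤ 1 := min_le_right _ _
  have hεε : ε ≤ ε₀ := min_le_left _ _
  have hK1 : (1 : ℝ) ≤ K := by exact_mod_cast hK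
  obtain ⟨L, δ, lam₀, hδ, hlam₀, H0⟩ := hNHG hQ (ε / 4) (by positivity) K hK
  refine ⟨L, δ, min lam₀ (ε / (4 * K)), hδ, lt_min hlam₀ (by positivity), fun a b ha hab hle S hS1 hSK => ?_⟩
  rcases S.eq_empty_or_nonempty with rfl | hSne
  · simp
  have hb0 : (0 : ℝ) ≤ b := Nat.cast_nonneg _
  have hle1 : (a : ℝ) ≤ lam₀ * b := hle.trans (mul_le_mul_of_nonneg_right (min_le_left _ _) hb0)
  have hle2 : (a : ℝ) ≤ ε / (4 * K) * b := hle.trans (mul_le_mul_of_nonneg_right (min_le_right _ _) hb0)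
  have hb : 1 ≤ b := by
    rcases Nat.eq_zero_or_pos b with rfl | h
    · rw [Nat.cast_zero, mul_zero] at hle2
      have : (1 : ℝ) ≤ a := by exact_mod_cast ha
      linarith
    · exact h
  set H : ℕ := 6 * a * b * ∏ s ∈ S, s with hH
  have hprod : 1 ≤ ∏ s ∈ S, s := Finset.one_le_prod' fun s hs => hS1 s hs
  have hH1 : 1 ≤ H := Nat.mul_pos (Nat.mul_pos (Nat.mul_pos (by norm_num) ha) hb) hprod
  obtain ⟨M, N₀, hM, hN₀⟩ := H0 a b ha hab hle1 S hSne hS1 hSK H hH1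
    ⟨a * b * ∏ s ∈ S, s, by rw [hH]; ring⟩ ⟨6 * b * ∏ s ∈ S, s, by rw [hH]; ring⟩
    ⟨6 * a * ∏ s ∈ S, s, by rw [hH]; ring⟩
    (fun s hs => (Finset.dvd_prod_of_mem (fun x => x) hs).mul_left _)
  -- the condition
  let P : ℕ → (ℕ × ℕ) → ℕ → ℕ → Prop := fun N t m r =>
    ∑ v ∈ range (nb a b t.1 t.2 m * (M * (2 * N))) with v % M = r, WG H a b ((M * N : ℕ) : ℤ) t.1 t.2 m v <
      ε / 4 * ((nb a b t.1 t.2 m : ℝ) * ((2 * N : ℕ) : ℝ))
  let F : ℕ → Set (↥(S ×ˢ S) × Fin L × Fin M) := fun N =>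
    {x | 1 ≤ (x.2.1 : ℕ) ∧ P N x.1.1 (x.2.1 : ℕ) (x.2.2 : ℕ)}
  obtain ⟨F₀, hF₀⟩ := Finite.exists_infinite_fiber F
  have hinf : (F ⁻¹' {F₀}).Infinite := Set.infinite_coe_iff.1 hF₀
  -- lower bound
  obtain ⟨N₁, hN₁, hN₁'⟩ := hinf.exists_gt N₀
  have hlow := hN₀ (2 * N₁) (by omega) ((M * N₁ : ℕ) : ℤ)
  refine hlow.trans ?_
  have hsub : {t ∈ S ×ˢ S | ∃ m ∈ Ico 1 L, ∃ r < M,
      ∑ v ∈ range (nb a b t.1 t.2 m * (M * (2 * N₁))) with v % M = r, WG H a b ((M * N₁ : ℕ) : ℤ) t.1 t.2 m v <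
        ε / 4 * ((nb a b t.1 t.2 m : ℝ) * ((2 * N₁ : ℕ) : ℝ))} ⊆
      {t ∈ S ×ˢ S | ∃ m ∈ Ico 1 L, Dens ε₀ (na a b t.1 t.2 m) (nb a b t.1 t.2 m)} := by
    intro t ht
    rw [Finset.mem_filter] at ht ⊢
    obtain ⟨ht1, m, hm, r, hr, hP⟩ := ht
    refine ⟨ht1, m, hm, TRG_dens hεε ?_⟩
    obtain ⟨hm1, hmL⟩ := Finset.mem_Ico.1 hm
    have hts := Finset.mem_product.1 ht1
    obtain ⟨hB, hAB⟩ := TRG_ratio ε hε hε1 K a b t.1 t.2 m hK ha hb hle2 (hS1 _ hts.1) (hS1 _ hts.2)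
      (hSK _ hts.1 _ hts.2) hm1
    have hmem : ((⟨t, ht1⟩, ⟨m, hmL⟩, ⟨r, hr⟩) : ↥(S ×ˢ S) × Fin L × Fin M) ∈ F₀ := by
      have h1 : F N₁ = F₀ := hN₁
      rw [← h1]
      exact ⟨hm1, hP⟩
    refine ⟨H * M, (((((nb a b t.1 t.2 m : ℕ) : ℤ) - (na a b t.1 t.2 m : ℕ) + H * r) % ((H * M : ℕ) : ℤ)).toNat),
      Nat.mul_pos hH1 hM, ?_, fun X₀ => ?_⟩
    · have hq : (0 : ℤ) < ((H * M : ℕ) : ℤ) := by exact_mod_cast Nat.mul_pos hH1 hM
      have h1 : (((((((nb a b t.1 t.2 m : ℕ) : ℤ) - (na a b t.1 t.2 m : ℕ) + H * r) % ((H * M : ℕ) : ℤ)).toNat) : ℕ) : ℤ) < ((H * M : ℕ) : ℤ) := by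
        rw [Int.toNat_of_nonneg (Int.emod_nonneg _ hq.ne')]
        exact Int.emod_lt_of_pos _ hq
      exact_mod_cast h1
    · obtain ⟨N₂, hN₂⟩ := exists_nat_ge (2 / ε)
      obtain ⟨N, hN, hN'⟩ := hinf.exists_gt (max X₀ N₂)
      have hNX : X₀ < N := lt_of_le_of_lt (le_max_left _ _) hN'
      have hNN : N₂ < N := lt_of_le_of_lt (le_max_right _ _) hN'
      have hmemN : ((⟨t, ht1⟩, ⟨m, hmL⟩, ⟨r, hr⟩) : ↥(S ×ˢ S) × Fin L × Fin M) ∈ F N := by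
        have h1 : F N = F₀ := hN
        rw [h1]
        exact hmem
      have hPN := hmemN.2
      refine ⟨nb a b t.1 t.2 m + H * ((nb a b t.1 t.2 m + na a b t.1 t.2 m) * (M * N)), ?_, ?_⟩
      · have h1 : N ≤ (nb a b t.1 t.2 m + na a b t.1 t.2 m) * (M * N) := by
          calc N ≤ M * N := Nat.le_mul_of_pos_left _ hM
            _ ≤ (nb a b t.1 t.2 m + na a b t.1 t.2 m) * (M * N) := Nat.le_mul_of_pos_left _ (by omega)
        have h2 : (nb a b t.1 t.2 m + na a b t.1 t.2 m) * (M * N) ≤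
            H * ((nb a b t.1 t.2 m + na a b t.1 t.2 m) * (M * N)) := Nat.le_mul_of_pos_left _ hH1
        omega
      · have hN2 : 2 / ε ≤ (N : ℝ) := hN₂.trans (by exact_mod_cast hNN.le)
        exact TRG_main ε hε hε1 (na a b t.1 t.2 m) (nb a b t.1 t.2 m) H M N r hB hAB hH1 hr hN2 hPN
  exact_mod_cast Finset.card_le_card hsub

end Pool.Agent.OV
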