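import Pool.Agent.helper38.OV.Spec

set_option autoImplicit false

namespace Pool.Agent.OV

open Finset Real Pool.Agent.AT Pool.Agent.helper85.FC Pool.Agent.OM

theorem UB3_sp (M T R Y : ℕ) (hR : M * T ≤ R) (φ : ℕ → ℤ → ℝ) (hφ : Sp 0 Y φ) :
    Sp R Y (fun i x => φ i x - sm M T (φ i) x) := by
  intro i x hx
  simp only [XX, mem_Ico, not_and, not_lt] at hx
  have hz : ∀ z : ℤ, (z < 0 ∨ (Y : ℤ) ≤ z) → φ i z = 0 := by
    intro z hz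
    apply hφ i z
    simp only [XX, mem_Ico, not_and, not_lt]
    intro h
    push_cast at h ⊢
    rcases hz with hz | hz
    · omega
    · omega
  have h0 : (0 : ℤ) ≤ (R : ℤ) := Int.natCast_nonneg _
  have hR' : ((M * T : ℕ) : ℤ) ≤ (R : ℤ) := by exact_mod_cast hR
  have h1 : φ i x = 0 := by
    apply hz
    by_cases h : -(R : ℤ) ≤ x
    · right
      have := hx h
      omega
    · left
      omega
  have h2 : sm M T (φ i) x = 0 := by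
    unfold sm
    rw [Finset.sum_eq_zero, zero_div]
    intro τ hτ
    apply hz
    have hτ' : τ < T := mem_range.mp hτ
    have h3 : (M : ℤ) * τ ≤ ((M * T : ℕ) : ℤ) := by
      push_cast
      exact mul_le_mul_of_nonneg_left (by exact_mod_cast hτ'.le) (Int.natCast_nonneg _)
    have h4 : (0 : ℤ) ≤ (M : ℤ) * τ := by positivity
    by_cases h : -(R : ℤ) ≤ x
    · right
      have := hx h
      omega
    · left
      omega
  simp only [h1, h2, sub_zero]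

theorem UB3_pt (hSM3 : SM3_stmt) (hSMO : OM.SMO_stmt) (L Y M1 R : ℕ) (κ : ℝ) (A B : ℕ → ℕ)
    (hSq : Sq L κ A B M1) (hY : 1 ≤ Y) (D T : ℕ → ℕ)
    (hD : ∀ m ∈ Ico 1 L, 1 ≤ D m ∧ Y ≤ 2 * (B m * D m))
    (hT : ∀ m ∈ Ico 1 L, 1 ≤ T m ∧ M1 * T m ≤ R ∧
      κ ^ 2 * ((M1 : ℝ) * B m * T m) ≤ 2 * ((A m : ℝ) * Y))
    (φ : ℕ → ℤ → ℝ) (hφ : Sp 0 Y φ) (α β : ℝ) :
    ∑ m ∈ Ico 1 L, Ph L (XX R Y) (fun i x => φ i x - sm (M1) (T m) (φ i) x) α *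
      FD (D m) ((A m : ℝ) * α + (B m : ℝ) * β) ≤ 9 * Ph L (XX R Y) φ α := by
  have hPh0 : 0 ≤ Ph L (XX R Y) φ α := Finset.sum_nonneg fun i _ => by positivity
  have hPu0 : ∀ m, 0 ≤ Ph L (XX R Y) (fun i x => φ i x - sm (M1) (T m) (φ i) x) α :=
    fun m => Finset.sum_nonneg fun i _ => by positivity
  have hPu4 : ∀ m ∈ Ico 1 L, Ph L (XX R Y) (fun i x => φ i x - sm (M1) (T m) (φ i) x) α ≤
      4 * Ph L (XX R Y) φ α := by
    intro m hm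
    unfold Ph
    rw [Finset.mul_sum]
    apply Finset.sum_le_sum
    intro i _
    exact (hSMO (M1) (T m) R Y (hT m hm).1 (hT m hm).2.1 (φ i) (hφ i) α).1
  rcases hPh0.eq_or_lt with h0 | h0
  · rw [← h0, mul_zero]
    refine le_of_eq (Finset.sum_eq_zero fun m hm => ?_)
    have h1 := hPu4 m hm
    rw [← h0, mul_zero] at h1
    rw [le_antisymm h1 (hPu0 m), zero_mul]
  · have key := hSM3 L Y M1 κ A B hSq hY D T hD (fun m hm => (hT m hm).2.2) α β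
      (fun m => Ph L (XX R Y) (fun i x => φ i x - sm (M1) (T m) (φ i) x) α / Ph L (XX R Y) φ α)
      (fun m hm => ⟨div_nonneg (hPu0 m) hPh0, by
        rw [div_le_iff₀ h0]
        exact hPu4 m hm⟩)
      (fun m hm ρ hρ hN => by
        rw [div_le_iff₀ h0]
        unfold Ph
        rw [Finset.mul_sum]
        apply Finset.sum_le_sum
        intro i _
        exact (hSMO (M1) (T m) R Y (hT m hm).1 (hT m hm).2.1 (φ i) (hφ i) α).2 ρ hρ hN)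
    have e : ∑ m ∈ Ico 1 L, Ph L (XX R Y) (fun i x => φ i x - sm (M1) (T m) (φ i) x) α *
        FD (D m) ((A m : ℝ) * α + (B m : ℝ) * β) = (∑ m ∈ Ico 1 L,
        Ph L (XX R Y) (fun i x => φ i x - sm (M1) (T m) (φ i) x) α / Ph L (XX R Y) φ α *
          FD (D m) ((A m : ℝ) * α + (B m : ℝ) * β)) * Ph L (XX R Y) φ α := by
      rw [Finset.sum_mul]
      refine Finset.sum_congr rfl fun m _ => ?_
      have := h0.ne'
      field_simp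
    rw [e]
    exact mul_le_mul_of_nonneg_right key hPh0

theorem UB3 (hSM3 : SM3_stmt) (hCS3 : CS3_stmt) (hUF3 : UF3_stmt) (_hGEO : OM.GEO_stmt) (hSMO : OM.SMO_stmt)
    (hPHS : OM.PHS_stmt) : UB3_stmt := by
  intro L Y M1 κ A B hSq hY T hT0 K φ ψ hK hφ1 hψ1 hφ hψ
  have hL : 1 ≤ L := hSq.1
  have hκ : 0 < κ := hSq.2.1
  have hκ1 : κ ≤ 1 := hSq.2.2.1
  have hL1 : (1 : ℝ) ≤ L := by exact_mod_cast hL
  have hsq : (1 : ℝ) ≤ √L := by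
    rw [show (1 : ℝ) = √1 by rw [Real.sqrt_one]]
    exact Real.sqrt_le_sqrt hL1
  have hAB : ∀ m ∈ Ico 1 L, 1 ≤ A m ∧ A m ≤ B m := by
    intro m hm
    obtain ⟨ha, hab⟩ := hSq.2.2.2.2.1 m hm
    refine ⟨ha, ?_⟩
    have ha1 : (1 : ℝ) ≤ A m := by exact_mod_cast ha
    have h1 : (A m : ℝ) ≤ 64 * √L * A m := by nlinarith
    have h2 : κ ^ 2 * B m ≤ B m := by
      have h3 : κ ^ 2 ≤ 1 := by nlinarith
      have h4 : (0 : ℝ) ≤ B m := Nat.cast_nonneg _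
      nlinarith
    have h5 : (A m : ℝ) ≤ B m := h1.trans (hab.trans h2)
    exact_mod_cast h5
  have hT : ∀ m ∈ Ico 1 L, 1 ≤ T m ∧ M1 * T m ≤ Y ∧ κ ^ 2 * ((M1 : ℝ) * B m * T m) ≤ 2 * ((A m : ℝ) * Y) :=
    fun m hm => (hT0 m hm).2
  obtain ⟨D, hDdef⟩ : ∃ D : ℕ → ℕ, ∀ m, D m = Y / B m := ⟨_, fun _ => rfl⟩
  have hD : ∀ m ∈ Ico 1 L, 1 ≤ D m ∧ B m * D m ≤ Y ∧ Y ≤ 2 * (B m * D m) := by
    intro m hm
    have hbm : B m ≤ Y := (hT0 m hm).1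
    have hbp : 0 < B m := (hAB m hm).1.trans (hAB m hm).2
    have h1 : 1 ≤ D m := by
      rw [hDdef, Nat.one_le_div_iff hbp]
      exact hbm
    have h2 : B m * D m ≤ Y := by
      rw [hDdef]
      exact Nat.mul_div_le _ _
    have h3 : Y < B m * (D m + 1) := by
      rw [hDdef]
      exact Nat.lt_mul_div_succ _ hbp
    refine ⟨h1, h2, ?_⟩
    have h4 : B m * 1 ≤ B m * D m := Nat.mul_le_mul_left _ h1
    rw [mul_add] at h3
    omega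
  have hcond : ∀ m ∈ Ico 1 L, 1 ≤ D m ∧ Y + A m * D m ≤ 3 * Y ∧ Y + B m * D m ≤ 3 * Y := by
    intro m hm
    obtain ⟨h1, h2, -⟩ := hD m hm
    have h3 : A m * D m ≤ B m * D m := Nat.mul_le_mul_right _ (hAB m hm).2
    exact ⟨h1, by omega, by omega⟩
  obtain ⟨φu, hφud⟩ : ∃ φu : ℕ → ℕ → ℤ → ℝ, φu = fun m i x => φ i x - sm (M1) (T m) (φ i) x := ⟨_, rfl⟩
  have hφu : ∀ m ∈ Ico 1 L, Sp Y Y (φu m) := by
    intro m hm
    rw [hφud]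
    exact UB3_sp (M1) (T m) Y Y (hT m hm).2.1 φ hφ
  have hψ' : Sp Y Y ψ := by
    intro i x hx
    apply hψ i x
    intro hx'
    apply hx
    simp only [XX, mem_Ico] at hx' ⊢
    push_cast at hx' ⊢
    constructor
    · linarith [hx'.1, Int.natCast_nonneg Y]
    · linarith [hx'.2, Int.natCast_nonneg Y]
  have hc := hCS3 L Y (3 * Y) Y A B D hcond K hK φu ψ hφu hψ'
  have hSe : (∑ m ∈ Ico 1 L, ∑ x ∈ XX (3 * Y) Y, ∑ y ∈ XX (3 * Y) Y, K m ((B m : ℤ) * x - (A m : ℤ) * y) *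
    gm L (fun i x => φ i x - sm (M1) (T m) (φ i) x) ψ m x y) =
      ∑ m ∈ Ico 1 L, ∑ x ∈ XX (3 * Y) Y, ∑ y ∈ XX (3 * Y) Y, K m ((B m : ℤ) * x - (A m : ℤ) * y) *
        gm L (φu m) ψ m x y := by
    rw [hφud]
  rw [hSe]
  obtain ⟨S, hS⟩ : ∃ S : ℝ, S = ∑ m ∈ Ico 1 L, ∑ x ∈ XX (3 * Y) Y, ∑ y ∈ XX (3 * Y) Y,
    K m ((B m : ℤ) * x - (A m : ℤ) * y) * gm L (φu m) ψ m x y := ⟨_, rfl⟩
  rw [← hS] at hc ⊢
  obtain ⟨AA, hAA⟩ : ∃ AA : ℕ → ℝ, AA = fun m => ∑ x ∈ XX (3 * Y) Y, ∑ y ∈ XX (3 * Y) Y,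
        ((∑ d ∈ range (D m), gm L (φu m) ψ m (x + (A m : ℤ) * d) (y + (B m : ℤ) * d)) / D m) ^ 2 := ⟨_, rfl⟩
  have hc' : S ^ 2 ≤ L * ((Y : ℝ) + 2 * (3 * Y : ℕ)) ^ 2 * ∑ m ∈ Ico 1 L, AA m := by
    rw [hAA]
    exact hc
  obtain ⟨Q, hQd⟩ : ∃ Q : ℕ, Q = 7 * Y := ⟨_, rfl⟩
  have hQ1 : 1 ≤ Q := by omega
  have hQ0 : (0 : ℝ) < Q := by exact_mod_cast hQ1
  have hYQ : Y + 2 * (3 * Y) ≤ Q := by omega
  have hu : ∀ m ∈ Ico 1 L, (Q : ℝ) ^ 2 * AA m ≤ ∑ k ∈ range Q, ∑ l ∈ range Q,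
      Ph L (XX (3 * Y) Y) (φu m) ((k : ℝ) / Q) *
      Ph L (XX (3 * Y) Y) ψ ((l : ℝ) / Q) * FD (D m) ((A m : ℝ) * ((k : ℝ) / Q) + (B m : ℝ) * ((l : ℝ) / Q)) := by
    intro m hm
    rw [hAA]
    exact hUF3 (A m) (B m) L (D m) Y (3 * Y) Y Q m (hcond m hm).1 hQ1 hYQ (hcond m hm).2.1 (hcond m hm).2.2 (φu m) ψ
      (hφu m hm) hψ'
  have hP0 : ∀ (f : ℕ → ℤ → ℝ) (α : ℝ), 0 ≤ Ph L (XX (3 * Y) Y) f α :=
    fun f α => Finset.sum_nonneg fun i _ => by positivity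
  have hpt : ∀ α β : ℝ, ∑ m ∈ Ico 1 L, Ph L (XX (3 * Y) Y) (φu m) α *
      FD (D m) ((A m : ℝ) * α + (B m : ℝ) * β) ≤ 9 * Ph L (XX (3 * Y) Y) φ α := by
    intro α β
    rw [hφud]
    exact UB3_pt hSM3 hSMO L Y M1 (3 * Y) κ A B hSq hY D T (fun m hm => ⟨(hD m hm).1, (hD m hm).2.2⟩)
      (fun m hm => ⟨(hT m hm).1, (hT m hm).2.1.trans (by omega), (hT m hm).2.2⟩) φ hφ α β
  have hsum : (Q : ℝ) ^ 2 * ∑ m ∈ Ico 1 L, AA m ≤ 9 * (Q * (L * Y)) * (Q * (L * Y)) := by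
    rw [Finset.mul_sum]
    calc ∑ m ∈ Ico 1 L, (Q : ℝ) ^ 2 * AA m ≤ ∑ m ∈ Ico 1 L, ∑ k ∈ range Q, ∑ l ∈ range Q,
            Ph L (XX (3 * Y) Y) (φu m) ((k : ℝ) / Q) * Ph L (XX (3 * Y) Y) ψ ((l : ℝ) / Q) *
              FD (D m) ((A m : ℝ) * ((k : ℝ) / Q) + (B m : ℝ) * ((l : ℝ) / Q)) := Finset.sum_le_sum hu
      _ = ∑ k ∈ range Q, ∑ l ∈ range Q, Ph L (XX (3 * Y) Y) ψ ((l : ℝ) / Q) *
            ∑ m ∈ Ico 1 L, Ph L (XX (3 * Y) Y) (φu m) ((k : ℝ) / Q) *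
              FD (D m) ((A m : ℝ) * ((k : ℝ) / Q) + (B m : ℝ) * ((l : ℝ) / Q)) := by
          rw [Finset.sum_comm]
          apply Finset.sum_congr rfl
          intro k _
          rw [Finset.sum_comm]
          apply Finset.sum_congr rfl
          intro l _
          rw [Finset.mul_sum]
          apply Finset.sum_congr rfl
          intro m _
          ring
      _ ≤ ∑ k ∈ range Q, ∑ l ∈ range Q, Ph L (XX (3 * Y) Y) ψ ((l : ℝ) / Q) *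
            (9 * Ph L (XX (3 * Y) Y) φ ((k : ℝ) / Q)) := by
          apply Finset.sum_le_sum
          intro k _
          apply Finset.sum_le_sum
          intro l _
          exact mul_le_mul_of_nonneg_left (hpt _ _) (hP0 ψ _)
      _ = 9 * (∑ k ∈ range Q, Ph L (XX (3 * Y) Y) φ ((k : ℝ) / Q)) *
            (∑ l ∈ range Q, Ph L (XX (3 * Y) Y) ψ ((l : ℝ) / Q)) := by
          rw [mul_assoc, Finset.sum_mul_sum, Finset.mul_sum]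
          apply Finset.sum_congr rfl
          intro k _
          rw [Finset.mul_sum]
          apply Finset.sum_congr rfl
          intro l _
          ring
      _ ≤ 9 * (Q * (L * Y)) * (Q * (L * Y)) := by
          have e1 := hPHS L (3 * Y) Y Q hQ1 hYQ φ hφ1 hφ
          have e2 := hPHS L (3 * Y) Y Q hQ1 hYQ ψ hψ1 hψ
          apply mul_le_mul
          · linarith
          · exact e2
          · exact Finset.sum_nonneg fun l _ => hP0 ψ _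
          · positivity
  have hsum2 : ∑ m ∈ Ico 1 L, AA m ≤ 9 * (L * Y) ^ 2 := by
    have e : (Q : ℝ) ^ 2 * ∑ m ∈ Ico 1 L, AA m ≤ (Q : ℝ) ^ 2 * (9 * (L * Y) ^ 2) := by
      refine hsum.trans (le_of_eq ?_)
      ring
    exact le_of_mul_le_mul_left e (by positivity)
  have hS2 : S ^ 2 ≤ 441 * (L : ℝ) ^ 3 * (Y : ℝ) ^ 4 := by
    calc S ^ 2 ≤ L * ((Y : ℝ) + 2 * (3 * Y : ℕ)) ^ 2 * ∑ m ∈ Ico 1 L, AA m := hc'
      _ ≤ L * ((Y : ℝ) + 2 * (3 * Y : ℕ)) ^ 2 * (9 * (L * Y) ^ 2) :=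
          mul_le_mul_of_nonneg_left hsum2 (by positivity)
      _ = 441 * (L : ℝ) ^ 3 * (Y : ℝ) ^ 4 := by
          push_cast
          ring
  apply abs_le_of_sq_le_sq _ (by positivity)
  refine hS2.trans (le_of_eq ?_)
  have h : (√(L : ℝ)) ^ 2 = L := Real.sq_sqrt (by positivity)
  calc 441 * (L : ℝ) ^ 3 * (Y : ℝ) ^ 4 = 441 * (L : ℝ) ^ 2 * (L : ℝ) * (Y : ℝ) ^ 4 := by ring
    _ = 441 * (L : ℝ) ^ 2 * (√(L : ℝ)) ^ 2 * (Y : ℝ) ^ 4 := by rw [h]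
    _ = _ := by ring

end Pool.Agent.OV
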